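import Pool.Agent.H785R2.ABC.Defs

/-!
# Combinatorial Cauchy-Schwarz (AB-CS)
-/

set_option autoImplicit false

namespace Pool.Agent.W583.AB

open Finset Pool.Agent.H785R2.ABC

/-- size of a class -/
def cl (P : Finset ℕ) (κ : ℕ → ℤ × ℤ) (c : ℤ × ℤ) : ℕ := (P.filter fun p => κ p = c).card

theorem cl_self_pos {P : Finset ℕ} {κ : ℕ → ℤ × ℤ} {p : ℕ} (hp : p ∈ P) : 1 ≤ cl P κ (κ p) :=
  Finset.card_pos.2 ⟨p, mem_filter.2 ⟨hp, rfl⟩⟩

theorem off_eq (P : Finset ℕ) (κ : ℕ → ℤ × ℤ) :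
    (((P ×ˢ P).filter fun t => t.1 ≠ t.2 ∧ κ t.1 = κ t.2).card : ℝ) =
      ∑ p ∈ P, ((cl P κ (κ p) : ℝ) - 1) := by
  rw [Finset.card_filter, Finset.sum_product, Nat.cast_sum]
  refine Finset.sum_congr rfl fun p hp => ?_
  rw [← Finset.card_filter]
  have h1 : (P.filter fun p' => p ≠ p' ∧ κ p = κ p') = (P.filter fun p' => κ p' = κ p).erase p := by
    ext p'
    simp only [mem_filter, mem_erase]
    constructor
    · rintro ⟨a, b, c⟩; exact ⟨fun h => b h.symm, a, c.symm⟩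
    · rintro ⟨a, b, c⟩; exact ⟨b, fun h => a h.symm, c.symm⟩
  have hmem : p ∈ P.filter fun p' => κ p' = κ p := mem_filter.2 ⟨hp, rfl⟩
  rw [h1, Finset.card_erase_of_mem hmem]
  have h2 : 1 ≤ (P.filter fun p' => κ p' = κ p).card := cl_self_pos hp
  rw [Nat.cast_sub h2, Nat.cast_one]
  rfl

theorem stmtCS : StmtCS := by
  intro P Q κP κQ
  set C : Finset (ℤ × ℤ) := Q.image κQ with hC
  have hL : (((P ×ˢ Q).filter fun t => κP t.1 = κQ t.2).card : ℝ) =
      ∑ q ∈ Q, (cl P κP (κQ q) : ℝ) := by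
    rw [Finset.card_filter, Finset.sum_product_right, Nat.cast_sum]
    refine Finset.sum_congr rfl fun q _ => ?_
    rw [← Finset.card_filter]
    rfl
  have hn : ∀ n : ℕ, (n : ℝ) ≤ 1 + √(2 * ((n : ℝ) * ((n : ℝ) - 1))) := by
    intro n
    rcases Nat.lt_or_ge n 2 with h | h
    · have h1 : (n : ℝ) ≤ 1 := by exact_mod_cast Nat.lt_succ_iff.1 h
      have := Real.sqrt_nonneg (2 * ((n : ℝ) * ((n : ℝ) - 1)))
      linarith
    · have h1 : (2 : ℝ) ≤ n := by exact_mod_cast h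
      have h2 : (n : ℝ) ≤ √(2 * ((n : ℝ) * ((n : ℝ) - 1))) := by
        apply Real.le_sqrt_of_sq_le
        nlinarith
      linarith
  have h1 : ∑ q ∈ Q, (cl P κP (κQ q) : ℝ) ≤ Q.card +
      ∑ q ∈ Q, √(2 * ((cl P κP (κQ q) : ℝ) * ((cl P κP (κQ q) : ℝ) - 1))) := by
    have := Finset.sum_le_sum (fun q (_ : q ∈ Q) => hn (cl P κP (κQ q)))
    rw [Finset.sum_add_distrib] at this
    simpa using this
  have h2 : ∑ q ∈ Q, √(2 * ((cl P κP (κQ q) : ℝ) * ((cl P κP (κQ q) : ℝ) - 1))) =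
      ∑ c ∈ C, (cl Q κQ c : ℝ) * √(2 * ((cl P κP c : ℝ) * ((cl P κP c : ℝ) - 1))) := by
    have := Finset.sum_comp (s := Q)
      (fun c => √(2 * ((cl P κP c : ℝ) * ((cl P κP c : ℝ) - 1)))) κQ
    rw [this]
    refine Finset.sum_congr rfl fun c _ => ?_
    rw [nsmul_eq_mul]; rfl
  have hnn : ∀ n : ℕ, 0 ≤ (n : ℝ) * ((n : ℝ) - 1) := by
    intro n
    rcases Nat.eq_zero_or_pos n with h | h
    · rw [h]; norm_num
    · have : (1 : ℝ) ≤ n := by exact_mod_cast h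
      exact mul_nonneg (by positivity) (by linarith)
  have h3 := Finset.sum_mul_sq_le_sq_mul_sq C (fun c => (cl Q κQ c : ℝ))
    (fun c => √(2 * ((cl P κP c : ℝ) * ((cl P κP c : ℝ) - 1))))
  have h4 : ∑ c ∈ C, (cl Q κQ c : ℝ) ^ 2 =
      Q.card + (((Q ×ˢ Q).filter fun t => t.1 ≠ t.2 ∧ κQ t.1 = κQ t.2).card : ℝ) := by
    have := Finset.sum_comp (s := Q) (fun c => (cl Q κQ c : ℝ)) κQ
    rw [off_eq, Finset.sum_sub_distrib, this]
    simp only [sum_const, nsmul_eq_mul, mul_one]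
    have e : ∑ c ∈ C, (cl Q κQ c : ℝ) ^ 2 =
        ∑ c ∈ image κQ Q, ((Q.filter fun a => κQ a = c).card : ℝ) * (cl Q κQ c : ℝ) := by
      refine Finset.sum_congr rfl fun c _ => ?_
      rw [sq]; rfl
    rw [e]; ring
  have h5 : ∑ c ∈ C, √(2 * ((cl P κP c : ℝ) * ((cl P κP c : ℝ) - 1))) ^ 2 ≤
      2 * (((P ×ˢ P).filter fun t => t.1 ≠ t.2 ∧ κP t.1 = κP t.2).card : ℝ) := by
    have e1 : ∀ c, √(2 * ((cl P κP c : ℝ) * ((cl P κP c : ℝ) - 1))) ^ 2 =
        2 * ((cl P κP c : ℝ) * ((cl P κP c : ℝ) - 1)) := fun c =>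
      Real.sq_sqrt (mul_nonneg (by norm_num) (hnn _))
    simp only [e1]
    rw [← Finset.mul_sum, off_eq]
    refine mul_le_mul_of_nonneg_left ?_ (by norm_num)
    have := Finset.sum_comp (s := P) (fun c => (cl P κP c : ℝ) - 1) κP
    rw [this]
    have e2 : ∑ c ∈ image κP P, (P.filter fun a => κP a = c).card • ((cl P κP c : ℝ) - 1) =
        ∑ c ∈ image κP P, (cl P κP c : ℝ) * ((cl P κP c : ℝ) - 1) := by
      refine Finset.sum_congr rfl fun c _ => ?_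
      rw [nsmul_eq_mul]; rfl
    rw [e2]
    calc ∑ c ∈ C, (cl P κP c : ℝ) * ((cl P κP c : ℝ) - 1) ≤
          ∑ c ∈ C ∪ image κP P, (cl P κP c : ℝ) * ((cl P κP c : ℝ) - 1) :=
          Finset.sum_le_sum_of_subset_of_nonneg Finset.subset_union_left fun c _ _ => hnn _
      _ = ∑ c ∈ image κP P, (cl P κP c : ℝ) * ((cl P κP c : ℝ) - 1) := by
          symm
          refine Finset.sum_subset Finset.subset_union_right fun c _ hc => ?_
          have : cl P κP c = 0 := by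
            unfold cl
            rw [Finset.card_eq_zero, Finset.filter_eq_empty_iff]
            intro p hp hpc
            exact hc (mem_image.2 ⟨p, hp, hpc⟩)
          rw [this]; norm_num
  rw [hL]
  refine h1.trans ?_
  rw [h2, ← Real.sqrt_eq_rpow]
  have h6 : ∑ c ∈ C, (cl Q κQ c : ℝ) * √(2 * ((cl P κP c : ℝ) * ((cl P κP c : ℝ) - 1))) ≤
      √(2 * (((P ×ˢ P).filter fun t => t.1 ≠ t.2 ∧ κP t.1 = κP t.2).card : ℝ) *
        (Q.card + ((Q ×ˢ Q).filter fun t => t.1 ≠ t.2 ∧ κQ t.1 = κQ t.2).card)) := by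
    apply Real.le_sqrt_of_sq_le
    refine h3.trans ?_
    rw [h4, mul_comm]
    refine mul_le_mul_of_nonneg_right h5 (by positivity)
  linarith

end Pool.Agent.W583.AB
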