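import Pool.Agent.H785R2.ABC.Defs

/-!
# Options for off-diagonal pairs (AB-O)
-/

set_option autoImplicit false

namespace Pool.Agent.W583.AB

open Finset Pool.Agent.H785R2.ABC

/-- the conditions on the pairs -/
def Cond (K X f : ℕ) (κ : ℝ) (R W : Finset (Fin (K + 1)) → ℝ) (Δ δ : ℝ) (t : ℕ × ℕ) : Prop :=
  t.1 ≠ t.2 ∧ 1 ≤ t.1 ∧ t.1 ≤ X ∧ 1 ≤ t.2 ∧ t.2 ≤ X ∧
      Nat.Coprime t.1 f ∧ Nat.Coprime t.2 f ∧ (t.1 : ZMod f) = (t.2 : ZMod f) ∧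
      |(t.1 : ℝ) - t.2| ≤ Δ ∧ (t.1 : ℝ) ≤ (1 + δ) * t.2 ∧ (t.2 : ℝ) ≤ (1 + δ) * t.1 ∧
      ∀ S, (rd K t.1 S : ℝ) ≤ R S ∧ (rd K t.2 S : ℝ) ≤ R S ∧
        (part K t.1 S : ℝ) ≤ W S ∧ (part K t.2 S : ℝ) ≤ W S ∧ W S ≤ κ * part K t.2 S

/-- `g(S)` -/
def gg (K : ℕ) (t : ℕ × ℕ) (S : Finset (Fin (K + 1))) : ℕ := Nat.gcd (rd K t.1 S) (rd K t.2 S)

theorem gg_pos (hF : Basics) (K : ℕ) (t : ℕ × ℕ) (S : Finset (Fin (K + 1))) : 1 ≤ gg K t S :=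
  Nat.gcd_pos_of_pos_left _ (hF.rd_pos K t.1 S)

/-- consequence of StmtW1 -/
theorem w1_bound (hF : Basics) {K : ℕ} {ε κ Dw : ℝ} (hκ : 1 ≤ κ) (hD : 0 < Dw)
    (hW : ∀ k : ℕ, 1 ≤ k → k ≤ K + 1 →
    ∀ X f : ℕ, 1 ≤ X → 1 ≤ f → f ≤ X → ∀ S : Finset (Fin (K + 1)), Good K k S →
    ∀ A R ρ δ : ℝ, 0 < A → 0 ≤ R → 0 < ρ → 0 ≤ δ → ∀ Q : Finset (ℕ × ℕ),
    (∀ t ∈ Q, 1 ≤ t.1 ∧ t.1 ≤ X ∧ 1 ≤ t.2 ∧ t.2 ≤ X ∧
      Nat.Coprime t.1 f ∧ Nat.Coprime t.2 f ∧ (t.1 : ZMod f) = (t.2 : ZMod f) ∧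
      (part K t.1 S : ℝ) ≤ A ∧ (part K t.2 S : ℝ) ≤ A ∧ A ≤ κ * part K t.2 S ∧
      (rd K t.1 Sᶜ : ℝ) ≤ R ∧ (rd K t.2 Sᶜ : ℝ) ≤ R ∧
      ρ * t.2 ≤ t.1 ∧ (t.1 : ℝ) ≤ ρ * (1 + δ) * t.2) →
    ∑ t ∈ Q, (Nat.gcd (rd K t.1 Sᶜ) (rd K t.2 Sᶜ) : ℝ) / (Nat.gcd (rd K t.1 S) (rd K t.2 S) : ℝ) ≤
      Dw * (X : ℝ) ^ ε * R ^ 2 * (1 + δ * (A ^ 2) ^ ((1 : ℝ) / k) / f))
    {k : ℕ} (hk : 1 ≤ k) (hk' : k ≤ K + 1) {X f : ℕ} (hX : 1 ≤ X) (hf : 1 ≤ f) (hfX : f ≤ X)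
    {S : Finset (Fin (K + 1))} (hS : Good K k S) {R W : Finset (Fin (K + 1)) → ℝ} {Δ δ : ℝ}
    (hR : ∀ S, 0 ≤ R S) (hδ : 0 ≤ δ) (hδκ : δ ≤ κ) {Q : Finset (ℕ × ℕ)}
    (hQ : ∀ t ∈ Q, Cond K X f κ R W Δ δ t) (hne : Q.Nonempty) :
    ∑ t ∈ Q, (gg K t Sᶜ : ℝ) / (gg K t S : ℝ) ≤
      (2 + κ) * Dw * (X : ℝ) ^ ε * R Sᶜ ^ 2 * (1 + δ * (W S ^ 2) ^ ((1 : ℝ) / k) / f) := by
  obtain ⟨t0, ht0⟩ := hne
  have hWS : 0 < W S := by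
    obtain ⟨-, -, -, -, -, -, -, -, -, -, -, h⟩ := hQ t0 ht0
    have h1 := (h S).2.2.1
    have h2 : (1 : ℝ) ≤ part K t0.1 S := by exact_mod_cast hF.part_pos K t0.1 S
    linarith
  have h1δ : 0 < 1 + δ := by linarith
  have key := hW k hk hk' X f hX hf hfX S hS (W S) (R Sᶜ) (1 / (1 + δ)) ((1 + δ) ^ 2 - 1) hWS
    (hR _) (by positivity) (by nlinarith) Q (fun t ht => by
      obtain ⟨c0, c1, c2, c3, c4, c5, c6, c7, c8, c9, c10, c11⟩ := hQ t ht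
      refine ⟨c1, c2, c3, c4, c5, c6, c7, (c11 S).2.2.1, (c11 S).2.2.2.1, (c11 S).2.2.2.2,
        (c11 Sᶜ).1, (c11 Sᶜ).2.1, ?_, ?_⟩
      · rw [one_div, inv_mul_le_iff₀ h1δ]; exact c10
      · have e : 1 / (1 + δ) * (1 + ((1 + δ) ^ 2 - 1)) = 1 + δ := by
          field_simp; ring
        rw [e]; exact c9)
  refine (le_of_eq ?_).trans (key.trans ?_)
  · rfl
  · have hy : 0 ≤ (W S ^ 2) ^ ((1 : ℝ) / k) / f := by positivity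
    have e1 : 1 + ((1 + δ) ^ 2 - 1) * (W S ^ 2) ^ ((1 : ℝ) / k) / f ≤
        (2 + κ) * (1 + δ * (W S ^ 2) ^ ((1 : ℝ) / k) / f) := by
      have e2 : (1 + δ) ^ 2 - 1 ≤ (2 + κ) * δ := by nlinarith
      have e3 : ((1 + δ) ^ 2 - 1) * (W S ^ 2) ^ ((1 : ℝ) / k) / f =
          ((1 + δ) ^ 2 - 1) * ((W S ^ 2) ^ ((1 : ℝ) / k) / f) := by ring
      have e4 : δ * (W S ^ 2) ^ ((1 : ℝ) / k) / f = δ * ((W S ^ 2) ^ ((1 : ℝ) / k) / f) := by ring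
      rw [e3, e4]
      have e5 := mul_le_mul_of_nonneg_right e2 hy
      nlinarith
    have hX0 : (0 : ℝ) ≤ (X : ℝ) ^ ε := by positivity
    have hC : 0 ≤ Dw * (X : ℝ) ^ ε * R Sᶜ ^ 2 := by positivity
    have := mul_le_mul_of_nonneg_left e1 hC
    calc _ ≤ Dw * (X : ℝ) ^ ε * R Sᶜ ^ 2 *
          ((2 + κ) * (1 + δ * (W S ^ 2) ^ ((1 : ℝ) / k) / f)) := this
      _ = _ := by ring

theorem gcd_mul_le {f a b : ℕ} {Δ : ℝ} (hab : a ≠ b) (haf : Nat.Coprime a f)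
    (hmod : (a : ZMod f) = (b : ZMod f)) (hΔ : |(a : ℝ) - b| ≤ Δ) :
    (Nat.gcd a b : ℝ) * f ≤ Δ := by
  set N : ℕ := ((a : ℤ) - b).natAbs with hN
  have hN0 : N ≠ 0 := by
    rw [hN, Int.natAbs_ne_zero, sub_ne_zero]
    exact_mod_cast hab
  have h1 : (f : ℤ) ∣ (a : ℤ) - b := by
    have h2 : (((a : ℤ) - b : ℤ) : ZMod f) = 0 := by
      push_cast
      rw [hmod, sub_self]
    exact (ZMod.intCast_zmod_eq_zero_iff_dvd _ _).1 h2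
  have h2 : f ∣ N := Int.natCast_dvd.1 h1
  have h3 : Nat.gcd a b ∣ N := by
    rw [← Int.natCast_dvd]
    exact dvd_sub (by exact_mod_cast Nat.gcd_dvd_left a b)
      (by exact_mod_cast Nat.gcd_dvd_right a b)
  have h4 : Nat.Coprime (Nat.gcd a b) f := Nat.Coprime.coprime_dvd_left (Nat.gcd_dvd_left a b) haf
  have h5 : Nat.gcd a b * f ≤ N := Nat.le_of_dvd (Nat.pos_of_ne_zero hN0)
    (h4.mul_dvd_of_dvd_of_dvd h3 h2)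
  have h6 : (N : ℝ) = |(a : ℝ) - b| := by
    rw [hN, Nat.cast_natAbs]
    push_cast
    rfl
  have h7 : ((Nat.gcd a b * f : ℕ) : ℝ) ≤ N := by exact_mod_cast h5
  push_cast at h7
  rw [h6] at h7
  linarith

theorem stmtO_of (hF : Basics) (hA4 : StmtA4) (hW : StmtW1) : StmtO := by
  intro K ε hε κ hκ
  obtain ⟨D4, hD4, H4⟩ := hA4 (ε / 2) (by positivity)
  obtain ⟨Dw, hDw, HW⟩ := hW K ε hε κ hκ
  refine ⟨D4 ^ 2 + (2 + κ) * Dw, by positivity, ?_⟩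
  intro o ho X f hX hf hfX R W Δ δ hR hΔ hδ hδκ Q hQ
  have hQ' : ∀ t ∈ Q, Cond K X f κ R W Δ δ t := hQ
  have hX1 : (1 : ℝ) ≤ X := by exact_mod_cast hX
  have hX0 : (0 : ℝ) ≤ (X : ℝ) ^ ε := by positivity
  have hf0 : (0 : ℝ) < f := by exact_mod_cast hf
  have hc2 : 0 ≤ (2 + κ) * Dw := by positivity
  rcases Q.eq_empty_or_nonempty with rfl | hne
  · rw [Finset.card_empty, Nat.cast_zero]
    refine mul_nonneg (by positivity) ?_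
    cases o with
    | zero => exact sq_nonneg _
    | one k μ S =>
      change 0 ≤ R Sᶜ ^ 2 * (Δ / f) ^ ((1 : ℝ) / μ) * (1 + δ * (W S ^ 2) ^ ((1 : ℝ) / k) / f)
      positivity
    | two k₁ S₁ k₂ S₂ =>
      change 0 ≤ R S₁ᶜ * R S₂ᶜ *
        ((1 + δ * (W S₁ ^ 2) ^ ((1 : ℝ) / k₁) / f) * (1 + δ * (W S₂ ^ 2) ^ ((1 : ℝ) / k₂) / f)) ^
        ((1 : ℝ) / 2)
      have := hR S₁ᶜ
      have := hR S₂ᶜ
      positivity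
  cases o with
  | zero =>
    change (Q.card : ℝ) ≤ (D4 ^ 2 + (2 + κ) * Dw) * (X : ℝ) ^ ε * (R univ ^ 2)
    set T : Finset ℕ := (Icc 1 X).filter fun d => (rad d : ℝ) ≤ R univ with hT
    have hsub : Q ⊆ T ×ˢ T := by
      intro t ht
      obtain ⟨c0, c1, c2, c3, c4, c5, c6, c7, c8, c9, c10, c11⟩ := hQ t ht
      rw [mem_product, hT, mem_filter, mem_filter, mem_Icc, mem_Icc]
      have h1 := (c11 univ).1
      have h2 := (c11 univ).2.1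
      rw [hF.rd_univ] at h1 h2
      exact ⟨⟨⟨c1, c2⟩, h1⟩, ⟨⟨c3, c4⟩, h2⟩⟩
    have h1 : (Q.card : ℝ) ≤ (T.card : ℝ) ^ 2 := by
      have := Finset.card_le_card hsub
      rw [Finset.card_product] at this
      have h2 : (Q.card : ℝ) ≤ ((T.card * T.card : ℕ) : ℝ) := by exact_mod_cast this
      rw [sq]; exact_mod_cast h2
    have h2 : (T.card : ℝ) ≤ D4 * (X : ℝ) ^ (ε / 2) * R univ := H4 X hX (R univ) (hR _)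
    have h3 : (T.card : ℝ) ^ 2 ≤ (D4 * (X : ℝ) ^ (ε / 2) * R univ) ^ 2 :=
      pow_le_pow_left₀ (by positivity) h2 2
    have h4 : (D4 * (X : ℝ) ^ (ε / 2) * R univ) ^ 2 = D4 ^ 2 * (X : ℝ) ^ ε * R univ ^ 2 := by
      have : ((X : ℝ) ^ (ε / 2)) ^ 2 = (X : ℝ) ^ ε := by
        rw [← Real.rpow_natCast, ← Real.rpow_mul (by linarith)]
        congr 1
        push_cast; ring
      rw [mul_pow, mul_pow, this]
    rw [h4] at h3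
    refine h1.trans (h3.trans ?_)
    have h5 : 0 ≤ (2 + κ) * Dw * (X : ℝ) ^ ε * R univ ^ 2 := by positivity
    nlinarith
  | one k μ S =>
    obtain ⟨hk, hk', hG, hμ, hμS⟩ := ho
    change (Q.card : ℝ) ≤ (D4 ^ 2 + (2 + κ) * Dw) * (X : ℝ) ^ ε *
      (R Sᶜ ^ 2 * (Δ / f) ^ ((1 : ℝ) / μ) * (1 + δ * (W S ^ 2) ^ ((1 : ℝ) / k) / f))
    have hw := w1_bound hF hκ hDw HW hk hk' hX hf hfX hG hR hδ hδκ hQ' hne
    have hone : ∀ t ∈ Q, (1 : ℝ) ≤ (Δ / f) ^ ((1 : ℝ) / μ) * ((gg K t Sᶜ : ℝ) / (gg K t S : ℝ)) := by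
      intro t ht
      obtain ⟨c0, c1, c2, c3, c4, c5, c6, c7, c8, c9, c10, c11⟩ := hQ t ht
      have g1 : (1 : ℝ) ≤ gg K t S := by exact_mod_cast gg_pos hF K t S
      have g2 : (1 : ℝ) ≤ gg K t Sᶜ := by exact_mod_cast gg_pos hF K t Sᶜ
      have h1 := gcd_mul_le c0 c5 c7 c8
      have h2 : gg K t S ^ μ ≤ Nat.gcd t.1 t.2 :=
        Nat.le_of_dvd (Nat.gcd_pos_of_pos_left _ c1) (hF.gcd_pow K μ t.1 t.2 S c1 c3 hμS)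
      have h3 : ((gg K t S : ℝ)) ^ μ ≤ Nat.gcd t.1 t.2 := by exact_mod_cast h2
      have h4 : ((gg K t S : ℝ)) ^ μ ≤ Δ / f := by
        rw [le_div_iff₀ hf0]
        exact (mul_le_mul_of_nonneg_right h3 hf0.le).trans h1
      have h5 : (gg K t S : ℝ) ≤ (Δ / f) ^ ((1 : ℝ) / μ) := by
        have h6 : (((gg K t S : ℝ)) ^ μ) ^ ((1 : ℝ) / μ) ≤ (Δ / f) ^ ((1 : ℝ) / μ) :=
          Real.rpow_le_rpow (by positivity) h4 (by positivity)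
        rwa [one_div, Real.pow_rpow_inv_natCast (by linarith) (by omega), ← one_div] at h6
      rw [mul_div_assoc', le_div_iff₀ (by linarith), one_mul]
      have h7 : 0 ≤ (Δ / f) ^ ((1 : ℝ) / μ) := by positivity
      nlinarith
    have hsum : (Q.card : ℝ) ≤ (Δ / f) ^ ((1 : ℝ) / μ) *
        ∑ t ∈ Q, (gg K t Sᶜ : ℝ) / (gg K t S : ℝ) := by
      rw [Finset.mul_sum]
      have := Finset.sum_le_sum hone
      simpa using this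
    refine hsum.trans ((mul_le_mul_of_nonneg_left hw (by positivity)).trans ?_)
    have h5 : 0 ≤ D4 ^ 2 * ((X : ℝ) ^ ε *
      (R Sᶜ ^ 2 * (Δ / f) ^ ((1 : ℝ) / μ) * (1 + δ * (W S ^ 2) ^ ((1 : ℝ) / k) / f))) := by
      positivity
    linarith
  | two k₁ S₁ k₂ S₂ =>
    obtain ⟨hk1, hk1', hG1, hk2, hk2', hG2, hdis⟩ := ho
    set Z1 : ℝ := 1 + δ * (W S₁ ^ 2) ^ ((1 : ℝ) / k₁) / f with hZ1
    set Z2 : ℝ := 1 + δ * (W S₂ ^ 2) ^ ((1 : ℝ) / k₂) / f with hZ2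
    change (Q.card : ℝ) ≤ (D4 ^ 2 + (2 + κ) * Dw) * (X : ℝ) ^ ε *
      (R S₁ᶜ * R S₂ᶜ * (Z1 * Z2) ^ ((1 : ℝ) / 2))
    have hw1 := w1_bound hF hκ hDw HW hk1 hk1' hX hf hfX hG1 hR hδ hδκ hQ' hne
    have hw2 := w1_bound hF hκ hDw HW hk2 hk2' hX hf hfX hG2 hR hδ hδκ hQ' hne
    have hZ1' : 0 ≤ Z1 := by positivity
    have hZ2' : 0 ≤ Z2 := by positivity
    have hR1 := hR S₁ᶜ
    have hR2 := hR S₂ᶜ
    set a : ℕ × ℕ → ℝ := fun t => (gg K t S₁ᶜ : ℝ) / (gg K t S₁ : ℝ) with ha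
    set b : ℕ × ℕ → ℝ := fun t => (gg K t S₂ᶜ : ℝ) / (gg K t S₂ : ℝ) with hb
    have ha0 : ∀ t, 0 ≤ a t := fun t => by rw [ha]; positivity
    have hb0 : ∀ t, 0 ≤ b t := fun t => by rw [hb]; positivity
    have hab : ∀ t ∈ Q, (1 : ℝ) ≤ √(a t) * √(b t) := by
      intro t ht
      rw [← Real.sqrt_mul (ha0 t), Real.one_le_sqrt]
      have s1 : S₂ ⊆ S₁ᶜ := by
        intro i hi
        rw [Finset.mem_compl]
        exact fun h => (Finset.disjoint_left.1 hdis h) hi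
      have s2 : S₁ ⊆ S₂ᶜ := by
        intro i hi
        rw [Finset.mem_compl]
        exact fun h => (Finset.disjoint_left.1 hdis hi) h
      have d1 : gg K t S₂ ≤ gg K t S₁ᶜ := Nat.le_of_dvd (gg_pos hF K t S₁ᶜ)
        (Nat.gcd_dvd_gcd_of_dvd_left _ (hF.rd_dvd K t.1 _ _ s1) |>.trans
          (Nat.gcd_dvd_gcd_of_dvd_right _ (hF.rd_dvd K t.2 _ _ s1)))
      have d2 : gg K t S₁ ≤ gg K t S₂ᶜ := Nat.le_of_dvd (gg_pos hF K t S₂ᶜ)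
        (Nat.gcd_dvd_gcd_of_dvd_left _ (hF.rd_dvd K t.1 _ _ s2) |>.trans
          (Nat.gcd_dvd_gcd_of_dvd_right _ (hF.rd_dvd K t.2 _ _ s2)))
      have g1 : (1 : ℝ) ≤ gg K t S₁ := by exact_mod_cast gg_pos hF K t S₁
      have g2 : (1 : ℝ) ≤ gg K t S₂ := by exact_mod_cast gg_pos hF K t S₂
      have d1' : (gg K t S₂ : ℝ) ≤ gg K t S₁ᶜ := by exact_mod_cast d1
      have d2' : (gg K t S₁ : ℝ) ≤ gg K t S₂ᶜ := by exact_mod_cast d2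
      change 1 ≤ (gg K t S₁ᶜ : ℝ) / (gg K t S₁ : ℝ) * ((gg K t S₂ᶜ : ℝ) / (gg K t S₂ : ℝ))
      rw [div_mul_div_comm, one_le_div (by positivity)]
      calc (gg K t S₁ : ℝ) * gg K t S₂ = gg K t S₂ * gg K t S₁ := mul_comm _ _
        _ ≤ gg K t S₁ᶜ * gg K t S₂ᶜ := mul_le_mul d1' d2' (by positivity) (by positivity)
    have hsum : (Q.card : ℝ) ≤ ∑ t ∈ Q, √(a t) * √(b t) := by
      have := Finset.sum_le_sum hab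
      simpa using this
    have hcs := Finset.sum_mul_sq_le_sq_mul_sq Q (fun t => √(a t)) (fun t => √(b t))
    have e1 : ∑ t ∈ Q, √(a t) ^ 2 = ∑ t ∈ Q, a t :=
      Finset.sum_congr rfl fun t _ => Real.sq_sqrt (ha0 t)
    have e2 : ∑ t ∈ Q, √(b t) ^ 2 = ∑ t ∈ Q, b t :=
      Finset.sum_congr rfl fun t _ => Real.sq_sqrt (hb0 t)
    rw [e1, e2] at hcs
    have hB : (∑ t ∈ Q, a t) * ∑ t ∈ Q, b t ≤
        ((2 + κ) * Dw * (X : ℝ) ^ ε * (R S₁ᶜ * R S₂ᶜ * (Z1 * Z2) ^ ((1 : ℝ) / 2))) ^ 2 := by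
      have h1 := mul_le_mul hw1 hw2 (Finset.sum_nonneg fun t _ => hb0 t) (by positivity)
      refine h1.trans (le_of_eq ?_)
      rw [← Real.sqrt_eq_rpow]
      have h2 : √(Z1 * Z2) ^ 2 = Z1 * Z2 := Real.sq_sqrt (by positivity)
      have h3 : ((2 + κ) * Dw * (X : ℝ) ^ ε * (R S₁ᶜ * R S₂ᶜ * √(Z1 * Z2))) ^ 2 =
          ((2 + κ) * Dw * (X : ℝ) ^ ε) ^ 2 * (R S₁ᶜ ^ 2 * R S₂ᶜ ^ 2) * √(Z1 * Z2) ^ 2 := by ring
      rw [h3, h2, ← hZ1, ← hZ2]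
      ring
    have hfin : ∑ t ∈ Q, √(a t) * √(b t) ≤
        (2 + κ) * Dw * (X : ℝ) ^ ε * (R S₁ᶜ * R S₂ᶜ * (Z1 * Z2) ^ ((1 : ℝ) / 2)) := by
      refine abs_le_of_sq_le_sq' (hcs.trans hB) (by positivity) |>.2
    refine hsum.trans (hfin.trans ?_)
    have h5 : 0 ≤ D4 ^ 2 * ((X : ℝ) ^ ε * (R S₁ᶜ * R S₂ᶜ * (Z1 * Z2) ^ ((1 : ℝ) / 2))) := by
      positivity
    linarith

end Pool.Agent.W583.AB
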